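import Pool.Agent.Lib.H98P.Defs

/-!
# H98P, chunk GE: generic vectors exist in every nonempty open set
-/

set_option autoImplicit false

namespace H98P

/-- GENERIC. PROOF. The vectors which are linear combinations of fewer than `finrank ℝ M` of the
`a e` lie in the finite union of the subspaces `span (a '' σ)`, `σ.card < finrank ℝ M`, each of
which is proper (`finrank_span_finset_le_card`, so it is not `⊤`). A proper subspace has measure
`0` for an additive Haar measure (`MeasureTheory.Measure.addHaar_submodule`; use
`borel M`, `MeasureTheory.Measure.addHaar`), a nonempty open set has positive measure. (Or: a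
proper subspace is closed with empty interior, a finite union of closed sets with empty interior
has empty interior.) -/
theorem exists_gen {E M : Type*} [Fintype E] [NormedAddCommGroup M] [NormedSpace ℝ M]
    [FiniteDimensional ℝ M] (a : E → M) (U : Set M) (hU : IsOpen U) (hne : U.Nonempty) :
    ∃ b ∈ U, Gen a (Module.finrank ℝ M) b := by
  classical
  by_contra hcon
  letI : MeasurableSpace M := borel M
  haveI : BorelSpace M := ⟨rfl⟩
  let μ : MeasureTheory.Measure M := MeasureTheory.Measure.addHaar
  have hsub : U ⊆ ⋃ σ : {σ : Finset E // σ.card < Module.finrank ℝ M},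
      (Submodule.span ℝ (a '' (σ.1 : Set E)) : Set M) := by
    intro b hb
    have h1 : ¬ Gen a (Module.finrank ℝ M) b := fun h => hcon ⟨b, hb, h⟩
    unfold Gen at h1
    push Not at h1
    obtain ⟨σ, hσ, w, hw⟩ := h1
    refine Set.mem_iUnion.2 ⟨⟨σ, hσ⟩, ?_⟩
    rw [← hw]
    refine Submodule.sum_mem _ fun e he => Submodule.smul_mem _ _ (Submodule.subset_span ?_)
    exact ⟨e, he, rfl⟩
  have hnull : μ (⋃ σ : {σ : Finset E // σ.card < Module.finrank ℝ M},
      (Submodule.span ℝ (a '' (σ.1 : Set E)) : Set M)) = 0 := by
    refine MeasureTheory.measure_iUnion_null fun σ => ?_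
    refine MeasureTheory.Measure.addHaar_submodule μ _ ?_
    intro htop
    have h1 : Module.finrank ℝ (Submodule.span ℝ (a '' (σ.1 : Set E))) ≤ σ.1.card := by
      rw [← Finset.coe_image]
      exact (finrank_span_finset_le_card _).trans Finset.card_image_le
    rw [htop, finrank_top] at h1
    exact absurd σ.2 (not_lt.2 h1)
  have hpos : 0 < μ U := hU.measure_pos μ hne
  exact absurd (MeasureTheory.measure_mono_null hsub hnull) hpos.ne'

end H98P
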