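import Pool.Agent.Lib.H98P.B0

/-!
# H98P, chunk AC: the complex of plane sets is acyclic when a plane set `S` is unblockable
-/

set_option autoImplicit false

namespace H98P

open Finset

variable {E : Type*} [Fintype E] [DecidableEq E]

/-- The contraction `h c` for a choice function `s`. -/
private def AC_h (S : Finset E) (s : Finset E → E) (c : Finset E → ZMod 2) (σ : Finset E) :
    ZMod 2 :=
  if s (σ \ S) ∈ σ then c (σ.erase (s (σ \ S))) else 0

private theorem AC_two (a : ZMod 2) : a + a = 0 := CharTwo.add_self_eq_zero a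

private theorem AC_erase_sdiff {S σ : Finset E} {x : E} (hx : x ∈ S) :
    (σ.erase x) \ S = σ \ S := by
  ext y
  simp only [mem_sdiff, mem_erase]
  constructor
  · rintro ⟨⟨_, h1⟩, h2⟩
    exact ⟨h1, h2⟩
  · rintro ⟨h1, h2⟩
    refine ⟨⟨?_, h1⟩, h2⟩
    rintro rfl
    exact h2 hx

private theorem AC_insert_sdiff_mem {S σ : Finset E} {x : E} (hx : x ∈ S) :
    (insert x σ) \ S = σ \ S := by
  ext y
  simp only [mem_sdiff, mem_insert]
  constructor
  · rintro ⟨h1, h2⟩
    rcases h1 with rfl | h1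
    · exact absurd hx h2
    · exact ⟨h1, h2⟩
  · rintro ⟨h1, h2⟩
    exact ⟨Or.inr h1, h2⟩

private theorem AC_insert_sdiff_card {S σ : Finset E} {x : E} (hx : x ∉ S) (hσ : x ∉ σ) :
    ((insert x σ) \ S).card = (σ \ S).card + 1 := by
  rw [insert_sdiff_of_notMem _ hx, card_insert_of_notMem]
  intro h
  exact hσ (mem_sdiff.1 h).1

private theorem AC_h_zero {S : Finset E} {s : Finset E → E} (hs : ∀ F, s F ∈ S)
    {c : Finset E → ZMod 2} {k : ℕ} (hk : ∀ σ, k < (σ \ S).card → c σ = 0)
    {σ : Finset E} (hσ : k < (σ \ S).card) : AC_h S s c σ = 0 := by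
  unfold AC_h
  split_ifs
  · apply hk
    rwa [AC_erase_sdiff (hs _)]
  · rfl

private theorem AC_step {S : Finset E} {s : Finset E → E} (hs : ∀ F, s F ∈ S)
    {c : Finset E → ZMod 2} {k : ℕ} (hk : ∀ σ, k < (σ \ S).card → c σ = 0)
    (hz : ∀ ρ, bd c ρ = 0) {ρ : Finset E} (hρ : k ≤ (ρ \ S).card) :
    c ρ + bd (AC_h S s c) ρ = 0 := by
  rcases hρ.lt_or_eq with h | h
  · rw [hk ρ h, zero_add]
    unfold bd
    apply sum_eq_zero
    intro e he
    apply AC_h_zero hs hk
    refine lt_of_lt_of_le h (card_le_card ?_)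
    exact sdiff_subset_sdiff (subset_insert _ _) (le_refl _)
  · -- the sum over `e ∉ ρ` reduces to `e ∈ S \ ρ`
    have h1 : bd (AC_h S s c) ρ = ∑ e ∈ S \ ρ, AC_h S s c (insert e ρ) := by
      unfold bd
      symm
      apply sum_subset
      · intro e he
        rw [mem_compl]
        exact (mem_sdiff.1 he).2
      · intro e he1 he2
        rw [mem_compl] at he1
        have he3 : e ∉ S := fun h3 => he2 (mem_sdiff.2 ⟨h3, he1⟩)
        apply AC_h_zero hs hk
        rw [AC_insert_sdiff_card he3 he1]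
        omega
    have h2 : ∀ e ∈ S \ ρ, AC_h S s c (insert e ρ) =
        if s (ρ \ S) ∈ insert e ρ then c ((insert e ρ).erase (s (ρ \ S))) else 0 := by
      intro e he
      unfold AC_h
      rw [AC_insert_sdiff_mem (mem_sdiff.1 he).1]
    rw [h1, sum_congr rfl h2]
    set x := s (ρ \ S) with hx
    have hxS : x ∈ S := hs _
    by_cases hxρ : x ∈ ρ
    · have h3 : ∀ e ∈ S \ ρ, (if x ∈ insert e ρ then c ((insert e ρ).erase x) else 0) =
          c (insert e (ρ.erase x)) := by
        intro e he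
        rw [if_pos (mem_insert_of_mem hxρ)]
        congr 1
        rw [erase_insert_of_ne]
        rintro rfl
        exact (mem_sdiff.1 he).2 hxρ
      rw [sum_congr rfl h3]
      have h4 := hz (ρ.erase x)
      have h5 : bd c (ρ.erase x) = c ρ + ∑ e ∈ S \ ρ, c (insert e (ρ.erase x)) := by
        unfold bd
        rw [compl_erase, sum_insert (by simpa using hxρ), insert_erase hxρ]
        congr 1
        symm
        apply sum_subset
        · intro e he
          rw [mem_compl]
          exact (mem_sdiff.1 he).2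
        · intro e he1 he2
          rw [mem_compl] at he1
          have he3 : e ∉ S := fun h3 => he2 (mem_sdiff.2 ⟨h3, he1⟩)
          apply hk
          rw [AC_insert_sdiff_card he3 (fun h6 => he1 (mem_of_mem_erase h6)),
            AC_erase_sdiff hxS]
          omega
      rw [← h5, h4]
    · have h3 : ∀ e ∈ S \ ρ, (if x ∈ insert e ρ then c ((insert e ρ).erase x) else 0) =
          if e = x then c ρ else 0 := by
        intro e he
        by_cases hex : e = x
        · subst hex
          rw [if_pos (mem_insert_self _ _), if_pos rfl, erase_insert hxρ]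
        · rw [if_neg hex, if_neg]
          intro h6
          rcases mem_insert.1 h6 with h7 | h7
          · exact hex h7.symm
          · exact hxρ h7
      rw [sum_congr rfl h3, sum_ite_eq' (S \ ρ) x (fun _ => c ρ),
        if_pos (mem_sdiff.2 ⟨hxS, hxρ⟩)]
      exact AC_two _

private theorem AC_supp {cross : E → E → Prop} (hsymm : ∀ e f, cross e f → cross f e)
    {L S : Finset E} (hSL : S ⊆ L) (hS : Plane cross S) {s : Finset E → E} (hs : ∀ F, s F ∈ S)
    (hs' : ∀ F : Finset E, F ⊆ L \ S → Plane cross F → ∀ f ∈ F, ¬ cross (s F) f)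
    {c : Finset E → ZMod 2} (hc : ∀ σ, c σ ≠ 0 → σ ⊆ L ∧ Plane cross σ)
    (σ : Finset E) (hσ : AC_h S s c σ ≠ 0) : σ ⊆ L ∧ Plane cross σ := by
  unfold AC_h at hσ
  split_ifs at hσ with h1
  · obtain ⟨h2, h3⟩ := hc _ hσ
    set F := σ \ S with hF
    have hFe : F ⊆ σ.erase (s F) := by
      intro y hy
      rw [hF, mem_sdiff] at hy
      rw [mem_erase]
      refine ⟨?_, hy.1⟩
      rintro rfl
      exact hy.2 (hs _)
    have h4 : F ⊆ L \ S := by
      intro y hy
      rw [mem_sdiff]
      exact ⟨h2 (hFe hy), (mem_sdiff.1 hy).2⟩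
    have h5 : Plane cross F := fun e he f hf => h3 e (hFe he) f (hFe hf)
    have h6 := hs' F h4 h5
    have h7 : ∀ f ∈ σ, ¬ cross (s F) f := by
      intro f hf
      by_cases hfS : f ∈ S
      · exact hS _ (hs F) _ hfS
      · exact h6 f (mem_sdiff.2 ⟨hf, hfS⟩)
    refine ⟨?_, ?_⟩
    · intro y hy
      by_cases hy2 : y = s F
      · rw [hy2]
        exact hSL (hs F)
      · exact h2 (mem_erase.2 ⟨hy2, hy⟩)
    · intro e he f hf
      by_cases he2 : e = s F
      · rw [he2]
        exact h7 f hf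
      · by_cases hf2 : f = s F
        · rw [hf2]
          intro h8
          exact h7 e he (hsymm _ _ h8)
        · exact h3 e (mem_erase.2 ⟨he2, he⟩) f (mem_erase.2 ⟨hf2, hf⟩)
  · exact absurd rfl hσ

private theorem AC_bd_supp {cross : E → E → Prop} {L : Finset E} {c : Finset E → ZMod 2}
    (hc : ∀ σ, c σ ≠ 0 → σ ⊆ L ∧ Plane cross σ) (ρ : Finset E) (hρ : bd c ρ ≠ 0) :
    ρ ⊆ L ∧ Plane cross ρ := by
  unfold bd at hρ
  obtain ⟨e, _, he2⟩ := exists_ne_zero_of_sum_ne_zero hρ
  obtain ⟨h1, h2⟩ := hc _ he2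
  exact ⟨(subset_insert _ _).trans h1, fun x hx y hy =>
    h2 x (mem_insert_of_mem hx) y (mem_insert_of_mem hy)⟩

private theorem AC_main {cross : E → E → Prop} (hsymm : ∀ e f, cross e f → cross f e)
    {L S : Finset E} (hSL : S ⊆ L) (hS : Plane cross S) {s : Finset E → E} (hs : ∀ F, s F ∈ S)
    (hs' : ∀ F : Finset E, F ⊆ L \ S → Plane cross F → ∀ f ∈ F, ¬ cross (s F) f) (k : ℕ) :
    ∀ c : Finset E → ZMod 2, (∀ σ, c σ ≠ 0 → σ ⊆ L ∧ Plane cross σ) → (∀ ρ, bd c ρ = 0) →
      (∀ σ, k ≤ (σ \ S).card → c σ = 0) →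
      ∃ d : Finset E → ZMod 2, (∀ σ, d σ ≠ 0 → σ ⊆ L ∧ Plane cross σ) ∧ ∀ ρ, bd d ρ = c ρ := by
  induction k with
  | zero =>
    intro c _ _ hk
    refine ⟨fun _ => 0, fun σ h => absurd rfl h, fun ρ => ?_⟩
    rw [hk ρ (Nat.zero_le _)]
    exact bd_zero ρ
  | succ k ih =>
    intro c hc hz hk
    have hk' : ∀ σ, k < (σ \ S).card → c σ = 0 := fun σ h => hk σ h
    have hsupp := AC_supp hsymm hSL hS hs hs' hc
    obtain ⟨d', hd1, hd2⟩ := ih (fun σ => c σ + bd (AC_h S s c) σ) (by
      intro σ hσ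
      by_cases h1 : c σ = 0
      · simp only [h1, zero_add] at hσ
        exact AC_bd_supp hsupp σ hσ
      · exact hc σ h1) (by
      intro ρ
      rw [bd_add, hz ρ, bd_bd, add_zero]) (by
      intro σ hσ
      exact AC_step hs hk' hz hσ)
    refine ⟨fun σ => d' σ + AC_h S s c σ, ?_, ?_⟩
    · intro σ hσ
      by_cases h1 : d' σ = 0
      · simp only [h1, zero_add] at hσ
        exact hsupp σ hσ
      · exact hd1 σ h1
    · intro ρ
      rw [bd_add, hd2 ρ, add_assoc, AC_two, add_zero]

/-- ACYCLIC. `L` a set of edges, `S ⊆ L` a plane set which is UNBLOCKABLE in `L`: every plane set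
`F ⊆ L - S` has an `s ∈ S` which crosses nothing of `F`. Then every cycle mod 2 which is supported
on plane subsets of `L` is the boundary of a chain supported on plane subsets of `L` (the empty set
is a simplex here).

PROOF. For `F ⊆ L \ S` plane choose `s F ∈ S` crossing nothing of `F` (arbitrary for other `F`).
For a chain `c` put `(h c) σ = if s (σ \ S) ∈ σ then c (σ.erase (s (σ \ S))) else 0`. `h c` is
supported on plane subsets of `L` if `c` is (`σ.erase s` plane, contained in `L`,
`F = σ \ S = (σ.erase s) \ S` is plane and in `L \ S`, `s` crosses nothing of `F` and nothing of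
`S`; use the symmetry of cross). LEVEL of `σ` = `(σ \ S).card`. CLAIM: if `bd c = 0` and `c` is `0`
at all levels `> k`, then `c' = c + bd (h c)` is `0` at all levels `≥ k`. Level `> k`: `h c` is `0`
at levels `> k` and `(bd (h c)) ρ` uses only sets of level `≥` the level of `ρ`. Level `k`,
`F = ρ \ S`, `s = s F` (if `ρ` is not a plane subset of `L`, then `c ρ = 0` and `bd (h c) ρ = 0`
because `h c` is supported on plane subsets of `L`): for `e ∉ ρ`, `e ∉ S` the set `insert e ρ` has
level `k + 1`, value `0`. For `e ∈ S \ ρ`, `(insert e ρ) \ S = F`. If `s ∉ ρ` only `e = s`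
contributes, it gives `c ρ`; so `c' ρ = c ρ + c ρ = 0`. If `s ∈ ρ`, `bd (h c) ρ` is the sum of
`c ((insert e ρ).erase s)` over `e ∈ S \ ρ`; and `0 = bd c (ρ.erase s)` is `c ρ` (term `e = s`)
plus the sum of `c (insert e (ρ.erase s))` over `e ∉ ρ`, where the terms with `e ∉ S` have level
`k + 1`, value `0`. So again `c' ρ = 0`. Now induct on `k`: STATEMENT P(k): every cycle `c`
supported on plane subsets of `L` with `c σ = 0` for all `σ` of level `≥ k` is a boundary as
claimed; P(0): `c = 0`. P(k) → P(k+1): `c' = c + bd (h c)` is a cycle (`bd_bd`, `bd_add`), supported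
on plane subsets of `L` (a subset of a plane subset of `L` is one), `c' = bd d'`,
`c = bd (d' + h c)`. Every level is `< card E + 1`. -/
theorem acyclic {cross : E → E → Prop} (hsymm : ∀ e f, cross e f → cross f e)
    {L S : Finset E} (hSL : S ⊆ L) (hS : Plane cross S)
    (hvis : ∀ F : Finset E, F ⊆ L \ S → Plane cross F → ∃ s ∈ S, ∀ f ∈ F, ¬ cross s f)
    {c : Finset E → ZMod 2} (hc : ∀ σ, c σ ≠ 0 → σ ⊆ L ∧ Plane cross σ)
    (hz : ∀ ρ, bd c ρ = 0) :
    ∃ d : Finset E → ZMod 2, (∀ σ, d σ ≠ 0 → σ ⊆ L ∧ Plane cross σ) ∧ ∀ ρ, bd d ρ = c ρ := by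
  classical
  obtain ⟨s₀, hs₀, _⟩ := hvis ∅ (empty_subset _) (fun e he => absurd he (notMem_empty e))
  have hch : ∀ F : Finset E, ∃ x : E, x ∈ S ∧
      (F ⊆ L \ S → Plane cross F → ∀ f ∈ F, ¬ cross x f) := by
    intro F
    by_cases h1 : F ⊆ L \ S ∧ Plane cross F
    · obtain ⟨x, hx, hx2⟩ := hvis F h1.1 h1.2
      exact ⟨x, hx, fun _ _ => hx2⟩
    · exact ⟨s₀, hs₀, fun h2 h3 => absurd ⟨h2, h3⟩ h1⟩
  choose s hs hs' using hch
  refine AC_main hsymm hSL hS hs hs' (Fintype.card E + 1) c hc hz ?_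
  intro σ hσ
  have h1 : (σ \ S).card ≤ Fintype.card E := card_le_univ _
  omega

end H98P
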