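import Pool.Agent.Lib.H98P.Defs

/-!
# H98P, chunk B0: elementary facts on the boundary mod 2
-/

set_option autoImplicit false

namespace H98P

open Finset

variable {E : Type*} [Fintype E] [DecidableEq E]

/-- The boundary is additive. -/
theorem bd_add (c d : Finset E → ZMod 2) (ρ : Finset E) :
    bd (fun σ => c σ + d σ) ρ = bd c ρ + bd d ρ := by
  simp [bd, sum_add_distrib]

/-- The boundary of a finite sum of chains. -/
theorem bd_sum {ι : Type*} (s : Finset ι) (c : ι → Finset E → ZMod 2) (ρ : Finset E) :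
    bd (fun σ => ∑ i ∈ s, c i σ) ρ = ∑ i ∈ s, bd (c i) ρ := by
  simp only [bd]
  rw [sum_comm]

/-- The boundary of the zero chain. -/
theorem bd_zero (ρ : Finset E) : bd (fun _ => 0) ρ = 0 := by
  simp [bd]

/-- `bd ∘ bd = 0`. PROOF: `bd (bd c) ρ` is the sum of `c (insert f (insert e ρ))` over the ordered
pairs `(e, f)` of different elements outside `ρ`; the pairs `(e, f)` and `(f, e)` give the same
value (e.g. `Finset.sum_involution`, or `∑ e ∑ f = ∑_{e<f} 2 * ..`). -/
theorem bd_bd (c : Finset E → ZMod 2) (ρ : Finset E) : bd (bd c) ρ = 0 := by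
  simp only [bd]
  rw [Finset.sum_sigma']
  refine Finset.sum_involution (fun x _ => (⟨x.2, x.1⟩ : Σ _ : E, E)) ?_ ?_ ?_ ?_
  · rintro ⟨e, f⟩ hx
    simp only
    rw [Finset.insert_comm e f ρ]
    exact CharTwo.add_self_eq_zero _
  · rintro ⟨e, f⟩ hx _ hEq
    simp only [Finset.mem_sigma, Finset.mem_compl, Finset.mem_insert, not_or] at hx
    have h1 : f = e := congrArg Sigma.fst hEq
    exact hx.2.1 h1
  · rintro ⟨e, f⟩ hx
    simp only [Finset.mem_sigma, Finset.mem_compl, Finset.mem_insert, not_or] at hx ⊢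
    exact ⟨hx.2.2, fun h => hx.2.1 h.symm, hx.1⟩
  · rintro ⟨e, f⟩ hx
    rfl

/-- Restriction of a chain to the sets with `m + 1` elements. -/
theorem bd_card (c : Finset E → ZMod 2) (m : ℕ) (ρ : Finset E) :
    bd (fun σ => if σ.card = m + 1 then c σ else 0) ρ = if ρ.card = m then bd c ρ else 0 := by
  simp only [bd]
  by_cases h : ρ.card = m
  · rw [if_pos h]
    refine Finset.sum_congr rfl fun e he => ?_
    rw [Finset.card_insert_of_notMem (Finset.mem_compl.1 he), if_pos (by omega)]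
  · rw [if_neg h]
    refine Finset.sum_eq_zero fun e he => ?_
    rw [Finset.card_insert_of_notMem (Finset.mem_compl.1 he), if_neg (by omega)]

/-- PAIRING: the boundary and the coboundary are adjoint. PROOF: both sides are the sum of
`B ρ * c τ` over the pairs `(ρ, τ)` with `τ = insert e ρ`, `e ∉ ρ`, i.e. `ρ = τ.erase e`, `e ∈ τ`
(`Finset.sum_bij'` on the sigma types `(ρ, e)`, `e ∈ ρᶜ`, and `(τ, e)`, `e ∈ τ`). -/
theorem pairing (B c : Finset E → ZMod 2) :
    ∑ ρ : Finset E, B ρ * bd c ρ = ∑ τ : Finset E, c τ * ∑ e ∈ τ, B (τ.erase e) := by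
  simp only [bd, Finset.mul_sum]
  rw [Finset.sum_sigma', Finset.sum_sigma']
  refine Finset.sum_bij' (fun x _ => (⟨insert x.2 x.1, x.2⟩ : Σ _ : Finset E, E))
    (fun x _ => (⟨x.1.erase x.2, x.2⟩ : Σ _ : Finset E, E)) ?_ ?_ ?_ ?_ ?_
  · rintro ⟨ρ, e⟩ hx
    simp
  · rintro ⟨τ, e⟩ hx
    simp
  · rintro ⟨ρ, e⟩ hx
    simp only [Finset.mem_sigma, Finset.mem_univ, true_and, Finset.mem_compl] at hx
    simp only
    rw [Finset.erase_insert hx]
  · rintro ⟨τ, e⟩ hx
    simp only [Finset.mem_sigma, Finset.mem_univ, true_and] at hx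
    simp only
    rw [Finset.insert_erase hx]
  · rintro ⟨ρ, e⟩ hx
    simp only [Finset.mem_sigma, Finset.mem_univ, true_and, Finset.mem_compl] at hx
    simp only
    rw [Finset.erase_insert hx, mul_comm]

end H98P
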