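import Pool.Agent.Lib.H98P.VO

/-!
# H98P, chunk F1: from a plane set in `V + ∞` avoiding `∞` to a plane set in `V`
-/

set_option autoImplicit false

namespace H98P

open Finset

variable {V : Type*} [Fintype V] [DecidableEq V]

/-- PROOF. Every `e ∈ σ` is `e'.map some` for a unique `e'` (its ends are different from `none`); `P` is
the set of these `e'`, `w' e' = w (e'.map some)`; `some v ∈ e'.map some ↔ v ∈ e'`; evaluate
`∑ w e • deg e = b` at `v`. -/
theorem toV {cross : Sym2 V → Sym2 V → Prop} (σ : Finset (Sym2 (Option V)))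
    (hσ : σ ⊆ LW ((univ : Finset (Option V)).erase none)) (hp : Plane (crossO cross) σ)
    (b : V → ℝ) (hb : InCone deg σ b) :
    ∃ P : Finset (Sym2 V), (∀ e ∈ P, ¬ e.IsDiag) ∧ Plane cross P ∧
      ∃ w : Sym2 V → ℝ, (∀ e ∈ P, 0 ≤ w e) ∧ ∀ v, ∑ e ∈ P with v ∈ e, w e = b v := by
  obtain ⟨w, hw, hwb⟩ := hb
  have hinj : Function.Injective (Sym2.map (some : V → Option V)) :=
    Sym2.map.injective (Option.some_injective V)
  have hex : ∀ e ∈ σ, ∃ e' : Sym2 V, e'.map some = e := by
    intro e he
    have h1 := hσ he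
    rw [LW, mem_filter] at h1
    have h2 := h1.1
    rw [Finset.mem_sym2_iff] at h2
    induction e using Sym2.ind with
    | _ x y =>
      have hx := h2 x (Sym2.mem_mk_left _ _)
      have hy := h2 y (Sym2.mem_mk_right _ _)
      rcases x with _ | x
      · simp at hx
      rcases y with _ | y
      · simp at hy
      exact ⟨s(x, y), rfl⟩
  obtain ⟨P, hP⟩ : ∃ P : Finset (Sym2 V), ∀ e, e ∈ P ↔ e.map some ∈ σ :=
    ⟨(univ : Finset (Sym2 V)).filter fun e => e.map some ∈ σ, fun e => by simp⟩
  have hPi : P.image (Sym2.map some) = σ := by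
    ext e
    rw [mem_image]
    constructor
    · rintro ⟨e', he', rfl⟩
      exact (hP e').1 he'
    · intro he
      obtain ⟨e', rfl⟩ := hex e he
      exact ⟨e', (hP e').2 he, rfl⟩
  refine ⟨P, ?_, ?_, fun e => w (e.map some), fun e he => hw _ ((hP e).1 he), ?_⟩
  · intro e he hd
    have h1 := hσ ((hP e).1 he)
    rw [LW, mem_filter] at h1
    apply h1.2
    induction e using Sym2.ind with
    | _ x y =>
      rw [Sym2.map_mk, Sym2.mk_isDiag_iff]
      rw [Sym2.mk_isDiag_iff] at hd
      exact congrArg some hd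
  · intro e he f hf hc
    exact hp _ ((hP e).1 he) _ ((hP f).1 hf) ⟨e, f, rfl, rfl, hc⟩
  · intro v
    rw [← hwb, ← hPi, Finset.sum_image fun x _ y _ h => hinj h, Finset.sum_apply, Finset.sum_filter]
    refine Finset.sum_congr rfl fun e _ => ?_
    have hiff : some v ∈ e.map some ↔ v ∈ e := by
      rw [Sym2.mem_map]
      constructor
      · rintro ⟨a, ha, h⟩
        rw [← Option.some_injective V h]
        exact ha
      · intro h
        exact ⟨v, h, rfl⟩
    rw [Pi.smul_apply, smul_eq_mul, deg]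
    by_cases hv : v ∈ e
    · rw [if_pos hv, if_pos (hiff.2 hv), mul_one]
    · rw [if_neg hv, if_neg fun h => hv (hiff.1 h), mul_zero]

end H98P
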