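import Pool.Agent.Lib.H98P.Defs

/-!
# H98P, chunk HA: from weights to an injective map (Hall), from an injective map to a matching
-/

set_option autoImplicit false

namespace H98P

open Finset

variable {V : Type*} [Fintype V] [DecidableEq V]

/-- HALL. PROOF. For `T : Finset V` let `N = {u | ∃ v ∈ T, s(v, u) ∈ P}`. Then
`∑_{v ∈ T} b v = ∑_{v ∈ T} ∑_{e ∈ P, v ∈ e} w e ≤ ∑_{u ∈ N} ∑_{e ∈ P, u ∈ e} w e = ∑_{u ∈ N} b u`:
an edge `e = s(v, u)`, `v ≠ u`, is counted on the left once for each end in `T`, and then its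
OTHER end is in `N`; so `card {x ∈ T, x ∈ e} ≤ card {x ∈ N, x ∈ e}` for every `e ∈ P`. With
`|b v - 1| < 1 / (2 n + 1)`, `n = card V`: `T.card (1 - ε) ≤ N.card (1 + ε)` (strict if `T` is
nonempty), `N.card ≤ n`, `ε (T.card + N.card) < 1`, so `T.card < N.card + 1`. So
`T.card ≤ N.card` and `Finset.all_card_le_biUnion_card_iff_exists_injective` gives `f`. -/
theorem hall (P : Finset (Sym2 V)) (hP : ∀ e ∈ P, ¬ e.IsDiag) (w : Sym2 V → ℝ)
    (hw : ∀ e ∈ P, 0 ≤ w e) (b : V → ℝ)
    (hb : ∀ v, |b v - 1| < 1 / (2 * Fintype.card V + 1))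
    (hdeg : ∀ v, ∑ e ∈ P with v ∈ e, w e = b v) :
    ∃ f : V → V, Function.Injective f ∧ ∀ v, s(v, f v) ∈ P := by
  obtain ⟨t, ht⟩ : ∃ t : V → Finset V, t = fun v => univ.filter fun u => s(v, u) ∈ P := ⟨_, rfl⟩
  obtain ⟨ε, hε⟩ : ∃ ε : ℝ, ε = 1 / (2 * Fintype.card V + 1) := ⟨_, rfl⟩
  rw [← hε] at hb
  have hkey : ∀ T : Finset V, T.card ≤ (T.biUnion t).card := by
    intro T
    obtain ⟨N, hN⟩ : ∃ N : Finset V, N = T.biUnion t := ⟨_, rfl⟩
    rw [← hN]
    have hsum : ∀ A : Finset V, ∑ v ∈ A, b v = ∑ e ∈ P, ((A.filter fun v => v ∈ e).card : ℝ) * w e := by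
      intro A
      calc ∑ v ∈ A, b v = ∑ v ∈ A, ∑ e ∈ P, if v ∈ e then w e else 0 := by
            refine Finset.sum_congr rfl fun v _ => ?_
            rw [← hdeg v, Finset.sum_filter]
        _ = ∑ e ∈ P, ∑ v ∈ A, if v ∈ e then w e else 0 := Finset.sum_comm
        _ = _ := by
            refine Finset.sum_congr rfl fun e _ => ?_
            rw [← Finset.sum_filter, Finset.sum_const, nsmul_eq_mul]
    have hle : ∑ v ∈ T, b v ≤ ∑ u ∈ N, b u := by
      rw [hsum T, hsum N]
      refine Finset.sum_le_sum fun e he => mul_le_mul_of_nonneg_right ?_ (hw e he)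
      have hc : (T.filter fun v => v ∈ e).card ≤ (N.filter fun v => v ∈ e).card := by
        induction e using Sym2.ind with
        | _ x y =>
          refine Finset.card_le_card_of_injOn (Equiv.swap x y) ?_ (Equiv.injective _).injOn
          intro v hv
          rw [Finset.mem_coe, Finset.mem_filter] at hv ⊢
          obtain ⟨hvT, hve⟩ := hv
          rw [Sym2.mem_iff] at hve
          rcases hve with rfl | rfl
          · rw [Equiv.swap_apply_left]
            refine ⟨?_, Sym2.mem_mk_right _ _⟩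
            rw [hN, Finset.mem_biUnion]
            refine ⟨v, hvT, ?_⟩
            rw [ht]
            exact Finset.mem_filter.2 ⟨Finset.mem_univ _, he⟩
          · rw [Equiv.swap_apply_right]
            refine ⟨?_, Sym2.mem_mk_left _ _⟩
            rw [hN, Finset.mem_biUnion]
            refine ⟨v, hvT, ?_⟩
            rw [ht]
            refine Finset.mem_filter.2 ⟨Finset.mem_univ _, ?_⟩
            rw [Sym2.eq_swap]
            exact he
      exact_mod_cast hc
    have h1 : (T.card : ℝ) * (1 - ε) ≤ ∑ v ∈ T, b v := by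
      rw [← nsmul_eq_mul]
      refine Finset.card_nsmul_le_sum _ _ _ fun v _ => ?_
      have := (abs_lt.1 (hb v)).1
      linarith
    have h2 : ∑ u ∈ N, b u ≤ (N.card : ℝ) * (1 + ε) := by
      rw [← nsmul_eq_mul]
      refine Finset.sum_le_card_nsmul _ _ _ fun v _ => ?_
      have := (abs_lt.1 (hb v)).2
      linarith
    have hTn : (T.card : ℝ) ≤ Fintype.card V := by exact_mod_cast Finset.card_le_univ T
    have hNn : (N.card : ℝ) ≤ Fintype.card V := by exact_mod_cast Finset.card_le_univ N
    have hn0 : (0 : ℝ) ≤ Fintype.card V := Nat.cast_nonneg _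
    have hε0 : 0 < ε := by
      rw [hε]
      positivity
    have hεn : ε * (2 * Fintype.card V) < 1 := by
      rw [hε, one_div, inv_mul_lt_iff₀ (by positivity)]
      linarith
    have h3 : (T.card : ℝ) ≤ N.card + ε * (2 * Fintype.card V) := by
      have h4 : ε * (T.card + N.card) ≤ ε * (2 * Fintype.card V) :=
        mul_le_mul_of_nonneg_left (by linarith) hε0.le
      have h5 : (T.card : ℝ) * (1 - ε) ≤ (N.card : ℝ) * (1 + ε) := h1.trans (hle.trans h2)
      nlinarith [h4, h5]
    have h6 : (T.card : ℝ) < N.card + 1 := by linarith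
    have h7 : T.card < N.card + 1 := by exact_mod_cast h6
    exact Nat.lt_succ_iff.1 h7
  obtain ⟨f, hf1, hf2⟩ := (Finset.all_card_le_biUnion_card_iff_exists_injective t).1 hkey
  refine ⟨f, hf1, fun v => ?_⟩
  have := hf2 v
  rw [ht] at this
  exact (Finset.mem_filter.1 this).2

/-- A THIRD. PROOF. Let `T` be a set of maximal cardinality with the stated property. A vertex `v`
is covered if `v ∈ T` or `v = f x` for some `x ∈ T`. If `v` is not covered then `f v ∈ T`:
otherwise `insert v T` would have the property (`f v ≠ v`; for `x ∈ T`, `x ≠ f v` as `f v ∉ T`,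
`v ≠ f x` as `v` is not covered; note `f v = f x` is impossible by injectivity), contradicting
maximality. So `f` maps the uncovered vertices injectively into `T`: there are at most `T.card`.
The covered ones are at most `T.card + T.card`. -/
theorem third (f : V → V) (hf : Function.Injective f) (hne : ∀ v, f v ≠ v) :
    ∃ T : Finset V, (∀ x ∈ T, ∀ y ∈ T, x ≠ f y) ∧ Fintype.card V ≤ 3 * T.card := by
  classical
  obtain ⟨T, hT, hmax⟩ := Finset.exists_max_image
    ((univ : Finset (Finset V)).filter fun T => ∀ x ∈ T, ∀ y ∈ T, x ≠ f y) Finset.card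
    ⟨∅, Finset.mem_filter.2 ⟨Finset.mem_univ _, fun x hx => absurd hx (Finset.notMem_empty x)⟩⟩
  have hT' : ∀ x ∈ T, ∀ y ∈ T, x ≠ f y := (Finset.mem_filter.1 hT).2
  refine ⟨T, hT', ?_⟩
  obtain ⟨U, hU⟩ : ∃ U : Finset V, U = univ \ (T ∪ T.image f) := ⟨_, rfl⟩
  have hUf : U.card ≤ T.card := by
    refine Finset.card_le_card_of_injOn f ?_ hf.injOn
    intro v hv
    rw [Finset.mem_coe] at hv ⊢
    by_contra hfv
    rw [hU, Finset.mem_sdiff, Finset.mem_union, Finset.mem_image] at hv
    obtain ⟨_, hv⟩ := hv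
    push Not at hv
    obtain ⟨hvT, hvf⟩ := hv
    have h1 : insert v T ∈ (univ : Finset (Finset V)).filter fun T => ∀ x ∈ T, ∀ y ∈ T, x ≠ f y := by
      refine Finset.mem_filter.2 ⟨Finset.mem_univ _, ?_⟩
      intro x hx y hy
      rw [Finset.mem_insert] at hx hy
      rcases hx with rfl | hx
      · rcases hy with rfl | hy
        · exact (hne _).symm
        · exact (hvf y hy).symm
      · rcases hy with rfl | hy
        · exact fun h => hfv (h ▸ hx)
        · exact hT' x hx y hy
    have h2 := hmax _ h1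
    rw [Finset.card_insert_of_notMem hvT] at h2
    omega
  have hcov : (univ : Finset V) ⊆ (T ∪ T.image f) ∪ U := by
    intro v _
    rw [hU, Finset.mem_union, Finset.mem_sdiff]
    by_cases h : v ∈ T ∪ T.image f
    · exact Or.inl h
    · exact Or.inr ⟨Finset.mem_univ _, h⟩
  have h1 : (univ : Finset V).card ≤ T.card + T.card + T.card :=
    (Finset.card_le_card hcov).trans ((Finset.card_union_le _ _).trans
      (Nat.add_le_add ((Finset.card_union_le _ _).trans
        (Nat.add_le_add_left Finset.card_image_le _)) hUf))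
  rw [Finset.card_univ] at h1
  omega

end H98P
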