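import Pool.Agent.Lib.H98P.Defs

/-!
# H98P, chunk O1: the door function at the stars and at the chains not covering a vertex
-/

set_option autoImplicit false

namespace H98P

open Finset

variable {V : Type*} [Fintype V] [DecidableEq V]

private theorem O1_star_none : star (univ : Finset (Option V)) none =
    (univ : Finset V).image (fun v => s((none : Option V), some v)) := by
  ext e
  simp only [star, mem_image, mem_erase, mem_univ, and_true, true_and]
  constructor
  · rintro ⟨z, hz, rfl⟩
    cases z with
    | none => exact absurd rfl hz
    | some v => exact ⟨v, rfl⟩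
  · rintro ⟨v, rfl⟩
    exact ⟨some v, Option.some_ne_none v, rfl⟩

omit [Fintype V] [DecidableEq V] in
private theorem O1_inj (z : Option V) : Function.Injective (fun x : Option V => s(z, x)) := by
  intro x y h
  exact Sym2.congr_right.1 h

omit [Fintype V] in
private theorem O1_deg_nonneg (e : Sym2 (Option V)) (v : V) : 0 ≤ deg e v := by
  unfold deg
  split_ifs <;> norm_num

omit [Fintype V] in
private theorem O1_deg_none (v x : V) : deg s((none : Option V), some v) x = if x = v then 1 else 0 := by
  unfold deg
  simp only [Sym2.mem_iff, reduceCtorEq, false_or, Option.some.injEq]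

/-- The star of the apex: `s(none, some v)` with weight `b v`, `v : V`, has degree vector `b`; it has
`card V` elements. -/
theorem door_star_none (b : V → ℝ) (hpos : ∀ v, 0 < b v) :
    door deg (Fintype.card V) b (star (univ : Finset (Option V)) none) = 1 := by
  classical
  have hinj : Function.Injective (fun v : V => s((none : Option V), some v)) := fun v w h =>
    Option.some_injective V (O1_inj none h)
  unfold door
  rw [if_pos]
  refine ⟨?_, ?_⟩
  · rw [O1_star_none, card_image_of_injective _ hinj, card_univ]
  · refine ⟨fun e => ∑ v, b v * deg e v, fun e _ => sum_nonneg fun v _ =>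
      mul_nonneg (hpos v).le (O1_deg_nonneg e v), ?_⟩
    rw [O1_star_none, sum_image fun x _ y _ h => hinj h]
    funext x
    rw [Finset.sum_apply]
    simp only [Pi.smul_apply, smul_eq_mul, O1_deg_none]
    simp

/-- The star of `some u`: if `b` is a nonnegative combination of its degree vectors, then `b v` is
the weight of `s(some u, some v)` for `v ≠ u`, and `b u` is the sum of all weights, in particular
`≥ ∑_{v ≠ u} b v`. -/
theorem door_star_some (b : V → ℝ) (u : V) (htri : b u < ∑ v ∈ univ.erase u, b v) :
    door deg (Fintype.card V) b (star (univ : Finset (Option V)) (some u)) = 0 := by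
  classical
  unfold door
  rw [if_neg]
  rintro ⟨-, w, hw, hb⟩
  unfold star at hw hb
  rw [sum_image fun x _ y _ h => O1_inj (some u) h] at hb
  have hw' : ∀ z ∈ (univ : Finset (Option V)).erase (some u), 0 ≤ w s(some u, z) := fun z hz =>
    hw _ (mem_image_of_mem _ hz)
  have h1 : ∀ v, v ≠ u → b v = w s(some u, some v) := by
    intro v hv
    rw [← hb, Finset.sum_apply]
    rw [sum_eq_single (some v)]
    · simp [deg]
    · intro z _ hzv
      have : ¬ (some v ∈ s(some u, z)) := by
        rw [Sym2.mem_iff]
        rintro (h | h)
        · exact hv (Option.some_injective V h)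
        · exact hzv h.symm
      simp [deg, this]
    · intro h
      exact absurd (mem_erase.2 ⟨fun h2 => hv (Option.some_injective V h2), mem_univ _⟩) h
  have h2 : b u = ∑ z ∈ (univ : Finset (Option V)).erase (some u), w s(some u, z) := by
    conv_lhs => rw [← hb, Finset.sum_apply]
    refine sum_congr rfl fun z _ => ?_
    simp [deg]
  have h3 : ∑ v ∈ univ.erase u, b v = ∑ v ∈ univ.erase u, w s(some u, some v) :=
    sum_congr rfl fun v hv => h1 v (ne_of_mem_erase hv)
  have h4 : ∑ v ∈ univ.erase u, w s(some u, some v) =
      ∑ z ∈ (univ.erase u).image some, w s(some u, z) := by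
    rw [sum_image fun x _ y _ h => Option.some_injective V h]
  have h5 : (univ.erase u).image some ⊆ (univ : Finset (Option V)).erase (some u) := by
    intro z hz
    obtain ⟨v, hv, rfl⟩ := mem_image.1 hz
    exact mem_erase.2 ⟨fun h => ne_of_mem_erase hv (Option.some_injective V h), mem_univ _⟩
  have h6 := sum_le_sum_of_subset_of_nonneg (f := fun z => w s(some u, z)) h5
    fun z hz _ => hw' z hz
  rw [h2, h3, h4] at htri
  exact absurd htri (not_lt.2 h6)

/-- If no edge of `ρ` contains `some v`, then `b` with `b v > 0` is not in the cone of `ρ`. -/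
theorem door_erase (b : V → ℝ) (v : V) (hpos : 0 < b v) (ρ : Finset (Sym2 (Option V)))
    (hρ : ρ ⊆ LW ((univ : Finset (Option V)).erase (some v))) :
    door deg (Fintype.card V) b ρ = 0 := by
  classical
  unfold door
  rw [if_neg]
  rintro ⟨-, w, -, hb⟩
  have h1 : b v = 0 := by
    rw [← hb, Finset.sum_apply]
    refine sum_eq_zero fun e he => ?_
    have h2 := hρ he
    unfold LW at h2
    rw [mem_filter, mem_sym2_iff] at h2
    have h3 : ¬ (some v ∈ e) := fun h => (ne_of_mem_erase (h2.1 _ h)) rfl
    simp [deg, h3]
  exact absurd h1 hpos.ne'

/-- The sum of the coordinates of the degree vector of a non-diagonal edge is positive. -/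
theorem sum_deg_pos (e : Sym2 (Option V)) (he : ¬ e.IsDiag) : 0 < ∑ v, deg e v := by
  classical
  have key : ∀ v : V, some v ∈ e → 0 < ∑ v, deg e v := by
    intro v hv
    refine sum_pos' (fun x _ => O1_deg_nonneg e x) ⟨v, mem_univ v, ?_⟩
    simp [deg, hv]
  induction e with
  | _ x y =>
    rw [Sym2.mk_isDiag_iff] at he
    cases x with
    | some v => exact key v (Sym2.mem_mk_left _ _)
    | none =>
      cases y with
      | some v => exact key v (Sym2.mem_mk_right _ _)
      | none => exact absurd rfl he

end H98P
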