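import Pool.Agent.Lib.H98P.B0
import Pool.Agent.Lib.H98P.DO
import Pool.Agent.Lib.H98P.O1

/-!
# H98P, chunk O2: the number of doors in the chain of `V` is odd
-/

set_option autoImplicit false

namespace H98P

open Finset

variable {V : Type*} [Fintype V] [DecidableEq V]

/-- ODD. PROOF. By `pairing` (with `B = door deg n b`, `n = card V`) and `doors` (with
`M = V → ℝ`, `finrank = n`, `φ x = ∑ v, x v`, `sum_deg_pos`; a `τ` with `c univ τ ≠ 0` has `n + 1`
elements and is inside `LW univ`) the sum of `door ρ * bd (c univ) ρ` over all `ρ` is `0`. Insert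
`hc2`, exchange the sums: for `u = some v` the sum of `door ρ * c (univ.erase (some v)) ρ` is `0` by
`door_erase`; for `u = none` it is the sum of the statement; the stars give `1` (`u = none`) and
`0` (`u = some v`). So the sum is `1` (mod 2). -/
theorem odd_door (c : Finset (Option V) → Finset (Sym2 (Option V)) → ZMod 2)
    (hc1 : ∀ W σ, c W σ ≠ 0 → σ ⊆ LW W ∧ σ.card = W.card)
    (hc2 : ∀ ρ, bd (c univ) ρ = ∑ u ∈ (univ : Finset (Option V)), c (univ.erase u) ρ +
      ∑ u ∈ (univ : Finset (Option V)), if ρ = star univ u then 1 else 0)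
    (b : V → ℝ) (hpos : ∀ v, 0 < b v) (htri : ∀ u, b u < ∑ v ∈ univ.erase u, b v)
    (hgen : Gen (deg (V := V)) (Fintype.card V) b) :
    ∑ σ, door deg (Fintype.card V) b σ * c (univ.erase none) σ = 1 := by
  classical
  have hlw : ∀ (W : Finset (Option V)) (e : Sym2 (Option V)), e ∈ LW W → ¬ e.IsDiag := by
    intro W e he
    exact (Finset.mem_filter.1 he).2
  have hdoors : ∀ τ : Finset (Sym2 (Option V)), c univ τ ≠ 0 →
      ∑ e ∈ τ, door deg (Fintype.card V) b (τ.erase e) = 0 := by
    intro τ hτ
    obtain ⟨h1, h2⟩ := hc1 univ τ hτ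
    rw [Finset.card_univ, Fintype.card_option] at h2
    refine doors (deg (V := V)) (∑ v : V, (LinearMap.proj v : (V → ℝ) →ₗ[ℝ] ℝ))
      (Module.finrank_fintype_fun_eq_card ℝ) b hgen τ h2 fun e he => ?_
    have h3 := sum_deg_pos e (hlw _ e (h1 he))
    simpa [LinearMap.sum_apply] using h3
  have hzero : ∑ ρ : Finset (Sym2 (Option V)), door deg (Fintype.card V) b ρ * bd (c univ) ρ = 0 := by
    rw [pairing]
    refine Finset.sum_eq_zero fun τ _ => ?_
    by_cases h : c univ τ = 0
    · rw [h, zero_mul]
    · rw [hdoors τ h, mul_zero]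
  have hA : ∀ v : V, ∑ ρ : Finset (Sym2 (Option V)),
      door deg (Fintype.card V) b ρ * c ((univ : Finset (Option V)).erase (some v)) ρ = 0 := by
    intro v
    refine Finset.sum_eq_zero fun ρ _ => ?_
    by_cases h : c ((univ : Finset (Option V)).erase (some v)) ρ = 0
    · rw [h, mul_zero]
    · rw [door_erase b v (hpos v) ρ (hc1 _ ρ h).1, zero_mul]
  have hstar : ∀ u : Option V, ∑ ρ : Finset (Sym2 (Option V)),
      door deg (Fintype.card V) b ρ * (if ρ = star univ u then (1 : ZMod 2) else 0)
        = door deg (Fintype.card V) b (star univ u) := by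
    intro u
    rw [Finset.sum_eq_single (star (univ : Finset (Option V)) u)]
    · rw [if_pos rfl, mul_one]
    · intro ρ _ hne
      rw [if_neg hne, mul_zero]
    · intro h
      exact absurd (Finset.mem_univ _) h
  have hsplit : ∑ ρ : Finset (Sym2 (Option V)), door deg (Fintype.card V) b ρ * bd (c univ) ρ =
      (∑ u : Option V, ∑ ρ : Finset (Sym2 (Option V)),
        door deg (Fintype.card V) b ρ * c ((univ : Finset (Option V)).erase u) ρ) +
      ∑ u : Option V, door deg (Fintype.card V) b (star univ u) := by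
    rw [Finset.sum_congr rfl fun u _ => (hstar u).symm]
    rw [Finset.sum_comm, Finset.sum_comm (s := (univ : Finset (Option V))) (t := univ)
      (f := fun u ρ => door deg (Fintype.card V) b ρ *
        (if ρ = star univ u then (1 : ZMod 2) else 0)), ← Finset.sum_add_distrib]
    refine Finset.sum_congr rfl fun ρ _ => ?_
    rw [hc2 ρ, mul_add, Finset.mul_sum, Finset.mul_sum]
  rw [hsplit, Fintype.sum_option, Fintype.sum_option, Finset.sum_eq_zero fun v _ => hA v,
    door_star_none b hpos, Finset.sum_eq_zero fun v _ => door_star_some b v (htri v),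
    add_zero, add_zero] at hzero
  have h2 : (1 : ZMod 2) + 1 = 0 := by decide
  exact add_right_cancel (hzero.trans h2.symm)

end H98P
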