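import Pool.Agent.Lib.H98P.C2
import Pool.Agent.Lib.H98P.O2
import Pool.Agent.Lib.H98P.F1
import Pool.Agent.Lib.H98P.GE
import Pool.Agent.Lib.H98P.HA

/-!
# H98P, chunk F2: the main theorem of the topological half
-/

set_option autoImplicit false

namespace H98P

open Finset

variable {V : Type*} [Fintype V] [DecidableEq V]

/-- THE DEGREE VECTOR. PROOF. `exists_gen` with `M = V → ℝ`, `U` the open set of all `b` with
`|b v - 1| < ε`, `ε = 1 / (2 n + 1) ≤ 1/7` for all `v` (it contains the constant `1`); then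
`b v > 0` and `b u < 1 + ε < 2 (1 - ε) ≤ ∑_{v ≠ u} b v`. -/
theorem exists_deg (hn : 3 ≤ Fintype.card V) :
    ∃ b : V → ℝ, (∀ v, |b v - 1| < 1 / (2 * Fintype.card V + 1)) ∧ (∀ v, 0 < b v) ∧
      (∀ u, b u < ∑ v ∈ univ.erase u, b v) ∧ Gen (deg (V := V)) (Fintype.card V) b := by
  classical
  have hn0 : (3 : ℝ) ≤ (Fintype.card V : ℝ) := by exact_mod_cast hn
  have hε : (1 : ℝ) / (2 * Fintype.card V + 1) ≤ 1 / 7 := by
    apply one_div_le_one_div_of_le (by norm_num)
    linarith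
  have hε0 : (0 : ℝ) < 1 / (2 * Fintype.card V + 1) := by positivity
  have hU : IsOpen {b : V → ℝ | ∀ v, |b v - 1| < 1 / (2 * Fintype.card V + 1)} := by
    rw [Set.ofPred_forall]
    refine isOpen_iInter_of_finite fun v => ?_
    exact isOpen_lt (by fun_prop) continuous_const
  have hne : {b : V → ℝ | ∀ v, |b v - 1| < 1 / (2 * (Fintype.card V : ℝ) + 1)}.Nonempty := by
    refine ⟨fun _ => 1, fun v => ?_⟩
    rw [sub_self, abs_zero]
    exact hε0
  obtain ⟨b, hb, hgen⟩ := exists_gen (deg (V := V)) _ hU hne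
  rw [Module.finrank_fintype_fun_eq_card] at hgen
  have hb1 : ∀ v, 6 / 7 < b v ∧ b v < 8 / 7 := by
    intro v
    have h1 := abs_lt.1 (hb v)
    constructor <;> linarith [h1.1, h1.2]
  refine ⟨b, hb, fun v => by linarith [(hb1 v).1], fun u => ?_, hgen⟩
  have h2 : ∑ v ∈ univ.erase u, (6 / 7 : ℝ) ≤ ∑ v ∈ univ.erase u, b v :=
    Finset.sum_le_sum fun v _ => (hb1 v).1.le
  rw [Finset.sum_const, Finset.card_erase_of_mem (Finset.mem_univ u), Finset.card_univ, nsmul_eq_mul,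
    Nat.cast_sub (by omega)] at h2
  have h3 := (hb1 u).2
  push_cast at h2
  nlinarith

/-- MAIN THEOREM, injective form. PROOF. `chains` for `X = Option V`, `crossO cross` (VO), `exists_deg`,
`odd_door`: some `σ` has `door σ ≠ 0` and `c (univ.erase none) σ ≠ 0`; `toV`, `hall`. -/
theorem exists_inj {cross : Sym2 V → Sym2 V → Prop} (hsymm : ∀ e f, cross e f → cross f e)
    (hadj : ∀ u v w, ¬ cross s(u, v) s(u, w))
    (hvis : ∀ W : Finset V, 3 ≤ W.card → ∃ p, Pole cross W p) (hn : 3 ≤ Fintype.card V) :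
    ∃ (P : Finset (Sym2 V)) (f : V → V), Plane cross P ∧ (∀ e ∈ P, ¬ e.IsDiag) ∧
      Function.Injective f ∧ ∀ v, s(v, f v) ∈ P := by
  classical
  obtain ⟨c, hc1, hc2⟩ := chains (X := Option V) (cross := crossO cross) (crossO_symm hsymm)
    (crossO_adj hadj) (poleO hvis)
  obtain ⟨b, hb, hpos, htri, hgen⟩ := exists_deg (V := V) hn
  have h2 : 2 ≤ (univ : Finset (Option V)).card := by
    rw [Finset.card_univ, Fintype.card_option]
    omega
  have hodd := odd_door c (fun W σ h => ⟨(hc1 W σ h).1, (hc1 W σ h).2.2⟩) (hc2 univ h2) b hpos htri hgen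
  have hex : ∃ σ, door deg (Fintype.card V) b σ * c (univ.erase none) σ ≠ 0 := by
    by_contra hcon
    push Not at hcon
    rw [Finset.sum_eq_zero fun σ _ => hcon σ] at hodd
    exact zero_ne_one hodd
  obtain ⟨σ, hσ⟩ := hex
  have hd : door deg (Fintype.card V) b σ ≠ 0 := left_ne_zero_of_mul hσ
  have hc : c (univ.erase none) σ ≠ 0 := right_ne_zero_of_mul hσ
  have hcone : InCone deg σ b := by
    by_contra hcon
    apply hd
    unfold door
    rw [if_neg fun h => hcon h.2]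
  obtain ⟨P, hP1, hP2, w, hw1, hw2⟩ := toV σ (hc1 _ _ hc).1 (hc1 _ _ hc).2.1 b hcone
  obtain ⟨f, hf1, hf2⟩ := hall P hP1 w hw1 b hb hw2
  exact ⟨P, f, hP2, hP1, hf1, hf2⟩

/-- MAIN THEOREM: a plane matching with at least `card V / 3` edges. PROOF. `exists_inj`,
`third` (`f v ≠ v` as `s(v, f v)` is not diagonal): `M` = the set of all `s(x, f x)`, `x ∈ T`. -/
theorem plane_matching {cross : Sym2 V → Sym2 V → Prop} (hsymm : ∀ e f, cross e f → cross f e)
    (hadj : ∀ u v w, ¬ cross s(u, v) s(u, w))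
    (hvis : ∀ W : Finset V, 3 ≤ W.card → ∃ p, Pole cross W p) (hn : 3 ≤ Fintype.card V) :
    ∃ M : Finset (Sym2 V), (∀ e ∈ M, ¬ e.IsDiag) ∧
      (∀ e ∈ M, ∀ f ∈ M, e ≠ f → ∀ v, v ∈ e → v ∉ f) ∧ Plane cross M ∧
      Fintype.card V ≤ 3 * M.card := by
  classical
  obtain ⟨P, f, hP2, hP1, hf1, hf2⟩ := exists_inj hsymm hadj hvis hn
  have hne : ∀ v, f v ≠ v := by
    intro v h
    exact hP1 _ (hf2 v) (by rw [Sym2.mk_isDiag_iff]; exact h.symm)
  obtain ⟨T, hT1, hT2⟩ := third f hf1 hne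
  refine ⟨T.image fun x => s(x, f x), ?_, ?_, ?_, ?_⟩
  · intro e he
    obtain ⟨x, -, rfl⟩ := Finset.mem_image.1 he
    exact hP1 _ (hf2 x)
  · intro e he g hg heg v hv hv'
    obtain ⟨x, hx, rfl⟩ := Finset.mem_image.1 he
    obtain ⟨y, hy, rfl⟩ := Finset.mem_image.1 hg
    apply heg
    rw [Sym2.mem_iff] at hv hv'
    rcases hv with rfl | rfl <;> rcases hv' with h | h
    · rw [h]
    · exact absurd h (hT1 _ hx _ hy)
    · exact absurd h.symm (hT1 _ hy _ hx)
    · rw [hf1 h]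
  · intro e he g hg
    obtain ⟨x, -, rfl⟩ := Finset.mem_image.1 he
    obtain ⟨y, -, rfl⟩ := Finset.mem_image.1 hg
    exact hP2 _ (hf2 x) _ (hf2 y)
  · rw [Finset.card_image_of_injOn]
    · exact hT2
    · intro x hx y hy h
      rcases Sym2.eq_iff.1 h with h | h
      · exact h.1
      · exact absurd h.1 (hT1 _ hx _ hy)

end H98P
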