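import Mathlib

/-!
# H98P: plane matchings with at least `n / 3` edges, topological half (definitions)

See `PROOF.md` in this folder. `E` is a finite type of edges, `cross` a relation on it, a chain is a
function `Finset E → ZMod 2`.
-/

set_option autoImplicit false

namespace H98P

/-- `F` is a plane set: no two of its elements cross. -/
def Plane {E : Type*} (cross : E → E → Prop) (F : Finset E) : Prop :=
  ∀ e ∈ F, ∀ f ∈ F, ¬ cross e f

/-- The boundary mod 2: `(bd c) ρ` is the sum of `c (insert e ρ)` over all `e ∉ ρ`. -/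
def bd {E : Type*} [Fintype E] [DecidableEq E] (c : Finset E → ZMod 2) (ρ : Finset E) : ZMod 2 :=
  ∑ e ∈ ρᶜ, c (insert e ρ)

/-- `b` is a nonnegative combination of the vectors `a e`, `e ∈ σ`. -/
def InCone {E M : Type*} [AddCommGroup M] [Module ℝ M] (a : E → M) (σ : Finset E) (b : M) : Prop :=
  ∃ w : E → ℝ, (∀ e ∈ σ, 0 ≤ w e) ∧ ∑ e ∈ σ, w e • a e = b

/-- `b` is not a linear combination of fewer than `d` of the vectors `a e`. -/
def Gen {E M : Type*} [AddCommGroup M] [Module ℝ M] (a : E → M) (d : ℕ) (b : M) : Prop :=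
  ∀ σ : Finset E, σ.card < d → ∀ w : E → ℝ, ∑ e ∈ σ, w e • a e ≠ b

open Classical in
/-- The door function: `1` iff `σ` has `d` elements and `b` is in the cone of `σ`. -/
noncomputable def door {E M : Type*} [AddCommGroup M] [Module ℝ M] (a : E → M) (d : ℕ) (b : M)
    (σ : Finset E) : ZMod 2 :=
  if σ.card = d ∧ InCone a σ b then 1 else 0

/-- The edges (pairs of different points) inside the vertex set `W`. -/
def LW {X : Type*} [DecidableEq X] (W : Finset X) : Finset (Sym2 X) :=
  W.sym2.filter fun e => ¬ e.IsDiag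

/-- The star of `u` in `W`: the edges `uv`, `v ∈ W`, `v ≠ u`. -/
def star {X : Type*} [DecidableEq X] (W : Finset X) (u : X) : Finset (Sym2 X) :=
  (W.erase u).image fun v => s(u, v)

/-- Visibility: `p` is a vertex of `W` such that for every plane set `F` of edges of `W - p` some
edge `pz`, `z ∈ W - p`, crosses nothing of `F`. -/
def Pole {X : Type*} [DecidableEq X] (cross : Sym2 X → Sym2 X → Prop) (W : Finset X) (p : X) :
    Prop :=
  p ∈ W ∧ ∀ F : Finset (Sym2 X), F ⊆ LW (W.erase p) → Plane cross F →
    ∃ z ∈ W.erase p, ∀ f ∈ F, ¬ cross s(p, z) f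

/-- The degree vector in `V → ℝ` of an edge of `V + ∞` (`none` is the apex `∞`). -/
def deg {V : Type*} [DecidableEq V] (e : Sym2 (Option V)) : V → ℝ :=
  fun v => if some v ∈ e then 1 else 0

/-- The crossing relation on the edges of `V + ∞`: the edges at `∞` cross nothing. -/
def crossO {V : Type*} (cross : Sym2 V → Sym2 V → Prop) (e f : Sym2 (Option V)) : Prop :=
  ∃ e' f' : Sym2 V, e = e'.map some ∧ f = f'.map some ∧ cross e' f'

end H98P
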