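import Pool.Agent.Lib.H98P.B0

/-!
# H98P, chunk C1: the right side of the recursion for the chains `c W` is a cycle
-/

set_option autoImplicit false

namespace H98P

open Finset

variable {X : Type*} [Fintype X] [DecidableEq X]

private theorem C1_inj (u : X) : Function.Injective (fun v : X => s(u, v)) := by
  intro a b hab
  have h : s(u, a) = s(u, b) := hab
  rw [Sym2.eq_iff] at h
  rcases h with h | h
  · exact h.2
  · exact h.2.trans h.1

private theorem C1_erase (W : Finset X) (u v : X) :
    (star W u).erase s(u, v) = star (W.erase v) u := by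
  unfold star
  rw [Finset.erase_right_comm]
  exact (Finset.image_erase (C1_inj u) (W.erase u) v).symm

private theorem C1_sym {g : X → X → ZMod 2} (hg : ∀ u v, g u v = g v u) (W : Finset X) :
    ∑ u ∈ W, ∑ v ∈ W.erase u, g u v = 0 := by
  rw [Finset.sum_sigma']
  refine Finset.sum_involution (fun x _ => (⟨x.2, x.1⟩ : Σ _ : X, X)) ?_ ?_ ?_ ?_
  · rintro ⟨e, f⟩ hx
    simp only
    rw [hg f e]
    exact CharTwo.add_self_eq_zero _
  · rintro ⟨e, f⟩ hx _ hEq
    simp only [Finset.mem_sigma, Finset.mem_erase] at hx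
    have h1 : f = e := congrArg Sigma.fst hEq
    exact hx.2.1 h1
  · rintro ⟨e, f⟩ hx
    simp only [Finset.mem_sigma, Finset.mem_erase] at hx ⊢
    exact ⟨hx.2.2, fun h => hx.2.1 h.symm, hx.1⟩
  · rintro ⟨e, f⟩ hx
    rfl

/-- The boundary of the simplex `star W u`: its faces are `star (W - v) u`, `v ∈ W - u`.
PROOF. `bd (δ_τ) ρ` is the number (mod 2) of `e ∉ ρ` with `insert e ρ = τ`, i.e. `1` if
`ρ = τ.erase e` for some `e ∈ τ`, and `0` otherwise. For `τ = star W u`, `e = s(u, v)`, `v ∈ W - u`,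
`τ.erase s(u, v) = star (W.erase v) u`; different `v` give different faces
(`v ↦ s(u, v)` is injective). -/
theorem bd_star (W : Finset X) (u : X) (ρ : Finset (Sym2 X)) :
    bd (fun σ => if σ = star W u then (1 : ZMod 2) else 0) ρ =
      ∑ v ∈ W.erase u, if ρ = star (W.erase v) u then 1 else 0 := by
  simp only [bd]
  have h1 : ∀ e ∈ ρᶜ, (if insert e ρ = star W u then (1 : ZMod 2) else 0) =
      if e ∈ star W u ∧ ρ = (star W u).erase e then 1 else 0 := by
    intro e he
    have he' : e ∉ ρ := Finset.mem_compl.1 he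
    refine if_congr ?_ rfl rfl
    constructor
    · intro h
      rw [← h]
      exact ⟨Finset.mem_insert_self e ρ, (Finset.erase_insert he').symm⟩
    · rintro ⟨h2, h3⟩
      conv_lhs => rw [h3]
      exact Finset.insert_erase h2
  rw [Finset.sum_congr rfl h1]
  have h2 : ∑ e ∈ ρᶜ, (if e ∈ star W u ∧ ρ = (star W u).erase e then (1 : ZMod 2) else 0) =
      ∑ e ∈ star W u, if ρ = (star W u).erase e then 1 else 0 := by
    have h3 : ∑ e ∈ ρᶜ, (if e ∈ star W u ∧ ρ = (star W u).erase e then (1 : ZMod 2) else 0) =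
        ∑ e : Sym2 X, if e ∈ star W u ∧ ρ = (star W u).erase e then 1 else 0 := by
      refine Finset.sum_subset (Finset.subset_univ _) fun e _ he => ?_
      rw [if_neg]
      rintro ⟨_, h5⟩
      rw [Finset.mem_compl, not_not] at he
      rw [h5] at he
      exact Finset.notMem_erase e _ he
    rw [h3]
    rw [← Finset.sum_subset (Finset.subset_univ (star W u)) fun e _ he => by
      rw [if_neg]
      exact fun h => he h.1]
    exact Finset.sum_congr rfl fun e he => by simp [he]
  rw [h2]
  conv_lhs => rw [show star W u = (W.erase u).image (fun v => s(u, v)) from rfl]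
  rw [Finset.sum_image fun a _ b _ h => C1_inj u h]
  refine Finset.sum_congr rfl fun v _ => ?_
  rw [← C1_erase]
  rfl

/-- RIGHT SIDE IS A CYCLE. PROOF. `bd` of the right side is, by `bd_add`, `bd_sum`, `hc` and
`bd_star`, the sum over the ordered pairs `(u, v)`, `u ≠ v` in `W`, of `c (W - u - v) ρ` (symmetric
in `u, v`, so `0` mod 2), of `[ρ = star (W - u) v]` (from `hc`) and of `[ρ = star (W - v) u]` (from
`bd_star`); the last two cancel after exchanging the names. -/
theorem rhs_cycle (c : Finset X → Finset (Sym2 X) → ZMod 2) (W : Finset X)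
    (hc : ∀ u ∈ W, ∀ ρ, bd (c (W.erase u)) ρ =
      ∑ v ∈ W.erase u, c ((W.erase u).erase v) ρ +
        ∑ v ∈ W.erase u, if ρ = star (W.erase u) v then 1 else 0) (ρ : Finset (Sym2 X)) :
    bd (fun ρ => ∑ u ∈ W, c (W.erase u) ρ + ∑ u ∈ W, if ρ = star W u then 1 else 0) ρ = 0 := by
  rw [bd_add, bd_sum, bd_sum]
  have h1 : ∑ u ∈ W, bd (c (W.erase u)) ρ = ∑ u ∈ W, ∑ v ∈ W.erase u,
      (if ρ = star (W.erase u) v then (1 : ZMod 2) else 0) := by
    rw [Finset.sum_congr rfl fun u hu => hc u hu ρ, Finset.sum_add_distrib,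
      C1_sym (g := fun u v => c ((W.erase u).erase v) ρ)
        (fun u v => by rw [Finset.erase_right_comm]), zero_add]
  rw [h1, Finset.sum_congr rfl fun u (_ : u ∈ W) => bd_star W u ρ]
  have h2 : ∑ u ∈ W, ∑ v ∈ W.erase u, (if ρ = star (W.erase u) v then (1 : ZMod 2) else 0) =
      ∑ u ∈ W, ∑ v ∈ W.erase u, (if ρ = star (W.erase v) u then (1 : ZMod 2) else 0) := by
    refine Finset.sum_comm' fun u v => ?_
    simp only [Finset.mem_erase]
    constructor
    · rintro ⟨a, b, d⟩
      exact ⟨⟨fun h => b h.symm, a⟩, d⟩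
    · rintro ⟨⟨a, b⟩, d⟩
      exact ⟨b, fun h => a h.symm, d⟩
  rw [h2]
  exact CharTwo.add_self_eq_zero _

end H98P
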