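import Pool.Agent.Lib.H98P.AC
import Pool.Agent.Lib.H98P.C1

/-!
# H98P, chunk C2: the chains `c W`
-/

set_option autoImplicit false

namespace H98P

open Finset

variable {X : Type*} [Fintype X] [DecidableEq X]

omit [Fintype X] in
private theorem C2_memLW {W : Finset X} {a b : X} : s(a, b) ∈ LW W ↔ (a ∈ W ∧ b ∈ W) ∧ a ≠ b := by
  unfold LW
  rw [Finset.mem_filter, Finset.mk_mem_sym2_iff, Sym2.mk_isDiag_iff]

omit [Fintype X] in
private theorem C2_memStar {W : Finset X} {u : X} {e : Sym2 X} :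
    e ∈ star W u ↔ ∃ v, (v ≠ u ∧ v ∈ W) ∧ s(u, v) = e := by
  unfold star
  rw [Finset.mem_image]
  constructor
  · rintro ⟨v, hv, rfl⟩
    exact ⟨v, Finset.mem_erase.1 hv, rfl⟩
  · rintro ⟨v, hv, rfl⟩
    exact ⟨v, Finset.mem_erase.2 hv, rfl⟩

omit [Fintype X] in
private theorem C2_starCard {W : Finset X} {u : X} (hu : u ∈ W) : (star W u).card + 1 = W.card := by
  unfold star
  rw [Finset.card_image_of_injective, Finset.card_erase_add_one hu]
  intro a b hab
  have h : s(u, a) = s(u, b) := hab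
  rw [Sym2.eq_iff] at h
  rcases h with h | h
  · exact h.2
  · exact h.2.trans h.1

omit [Fintype X] in
private theorem C2_starLW {W : Finset X} {u : X} (hu : u ∈ W) : star W u ⊆ LW W := by
  intro e he
  obtain ⟨v, hv, rfl⟩ := C2_memStar.1 he
  exact C2_memLW.2 ⟨⟨hu, hv.2⟩, fun h => hv.1 h.symm⟩

omit [Fintype X] in
private theorem C2_starPlane {cross : Sym2 X → Sym2 X → Prop}
    (hadj : ∀ u v w, ¬ cross s(u, v) s(u, w)) (W : Finset X) (u : X) : Plane cross (star W u) := by
  intro e he f hf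
  obtain ⟨v, _, rfl⟩ := C2_memStar.1 he
  obtain ⟨w, _, rfl⟩ := C2_memStar.1 hf
  exact hadj u v w

omit [Fintype X] in
private theorem C2_LWmono {W W' : Finset X} (h : W ⊆ W') : LW W ⊆ LW W' := by
  intro e he
  induction e using Sym2.ind with
  | h a b =>
    rw [C2_memLW] at he ⊢
    exact ⟨⟨h he.1.1, h he.1.2⟩, he.2⟩

omit [Fintype X] in
private theorem C2_diff {W : Finset X} {p : X} {F : Finset (Sym2 X)} (hF : F ⊆ LW W \ star W p) :
    F ⊆ LW (W.erase p) := by
  intro e he
  have h1 := hF he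
  rw [Finset.mem_sdiff] at h1
  obtain ⟨h2, h3⟩ := h1
  induction e using Sym2.ind with
  | h a b =>
    rw [C2_memLW] at h2 ⊢
    refine ⟨⟨Finset.mem_erase.2 ⟨?_, h2.1.1⟩, Finset.mem_erase.2 ⟨?_, h2.1.2⟩⟩, h2.2⟩
    · rintro rfl
      exact h3 (C2_memStar.2 ⟨b, ⟨fun h => h2.2 h.symm, h2.1.2⟩, rfl⟩)
    · rintro rfl
      exact h3 (C2_memStar.2 ⟨a, ⟨h2.2, h2.1.1⟩, Sym2.eq_swap⟩)

/-- The right side of the recursion. -/
private def C2_r (c : Finset X → Finset (Sym2 X) → ZMod 2) (W : Finset X) (ρ : Finset (Sym2 X)) :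
    ZMod 2 :=
  ∑ u ∈ W, c (W.erase u) ρ + ∑ u ∈ W, if ρ = star W u then 1 else 0

omit [Fintype X] in
private theorem C2_supp {cross : Sym2 X → Sym2 X → Prop}
    (hadj : ∀ u v w, ¬ cross s(u, v) s(u, w)) {c : Finset X → Finset (Sym2 X) → ZMod 2}
    (hc : ∀ W σ, c W σ ≠ 0 → σ ⊆ LW W ∧ Plane cross σ ∧ σ.card = W.card) (W : Finset X)
    (ρ : Finset (Sym2 X)) (hρ : C2_r c W ρ ≠ 0) :
    ρ ⊆ LW W ∧ Plane cross ρ ∧ ρ.card + 1 = W.card := by
  unfold C2_r at hρ
  by_cases h1 : ∑ u ∈ W, c (W.erase u) ρ = 0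
  · rw [h1, zero_add] at hρ
    obtain ⟨u, hu, hu2⟩ := Finset.exists_ne_zero_of_sum_ne_zero hρ
    have h2 : ρ = star W u := by
      by_contra h3
      exact hu2 (if_neg h3)
    rw [h2]
    exact ⟨C2_starLW hu, C2_starPlane hadj W u, C2_starCard hu⟩
  · obtain ⟨u, hu, hu2⟩ := Finset.exists_ne_zero_of_sum_ne_zero h1
    obtain ⟨h3, h4, h5⟩ := hc _ _ hu2
    refine ⟨h3.trans (C2_LWmono (Finset.erase_subset _ _)), h4, ?_⟩
    rw [h5, Finset.card_erase_add_one hu]

omit [Fintype X] in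
private theorem C2_two {c : Finset X → Finset (Sym2 X) → ZMod 2}
    {cross : Sym2 X → Sym2 X → Prop}
    (hc : ∀ W σ, c W σ ≠ 0 → σ ⊆ LW W ∧ Plane cross σ ∧ σ.card = W.card) {W : Finset X}
    (hW : W.card = 2) (ρ : Finset (Sym2 X)) : C2_r c W ρ = 0 := by
  obtain ⟨a, b, hab, rfl⟩ := Finset.card_eq_two.1 hW
  unfold C2_r
  have h1 : ∀ W' : Finset X, W'.card = 1 → c W' ρ = 0 := by
    intro W' hW'
    by_contra h2
    obtain ⟨h3, _, h5⟩ := hc _ _ h2
    obtain ⟨x, rfl⟩ := Finset.card_eq_one.1 hW'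
    rw [hW', Finset.card_eq_one] at h5
    obtain ⟨e, rfl⟩ := h5
    have h6 := h3 (Finset.mem_singleton_self e)
    induction e using Sym2.ind with
    | h u v =>
      rw [C2_memLW, Finset.mem_singleton, Finset.mem_singleton] at h6
      exact h6.2 (h6.1.1.trans h6.1.2.symm)
  have h2 : ∑ u ∈ ({a, b} : Finset X), c (({a, b} : Finset X).erase u) ρ = 0 := by
    refine Finset.sum_eq_zero fun u hu => h1 _ ?_
    rw [Finset.card_erase_of_mem hu, hW]
  have h3 : star ({a, b} : Finset X) a = {s(a, b)} := by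
    ext e
    rw [C2_memStar, Finset.mem_singleton]
    constructor
    · rintro ⟨v, ⟨hv1, hv2⟩, rfl⟩
      rw [Finset.mem_insert, Finset.mem_singleton] at hv2
      rw [hv2.resolve_left hv1]
    · rintro rfl
      exact ⟨b, ⟨hab.symm, by simp⟩, rfl⟩
  have h4 : star ({a, b} : Finset X) b = {s(a, b)} := by
    ext e
    rw [C2_memStar, Finset.mem_singleton]
    constructor
    · rintro ⟨v, ⟨hv1, hv2⟩, rfl⟩
      rw [Finset.mem_insert, Finset.mem_singleton] at hv2
      rw [hv2.resolve_right hv1, Sym2.eq_swap]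
    · rintro rfl
      exact ⟨a, ⟨hab, by simp⟩, Sym2.eq_swap⟩
  rw [h2, zero_add, Finset.sum_pair hab, h3, h4]
  exact CharTwo.add_self_eq_zero _

private theorem C2_step {cross : Sym2 X → Sym2 X → Prop} (hsymm : ∀ e f, cross e f → cross f e)
    (hadj : ∀ u v w, ¬ cross s(u, v) s(u, w))
    (hvis : ∀ W : Finset X, 3 ≤ W.card → ∃ p, Pole cross W p)
    {c : Finset X → Finset (Sym2 X) → ZMod 2} {m : ℕ} (hm : 1 ≤ m)
    (hc : ∀ W σ, c W σ ≠ 0 → σ ⊆ LW W ∧ Plane cross σ ∧ σ.card = W.card)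
    (hr : ∀ W : Finset X, 2 ≤ W.card → W.card ≤ m → ∀ ρ, bd (c W) ρ = C2_r c W ρ)
    (W : Finset X) (hW : W.card = m + 1) :
    ∃ d : Finset (Sym2 X) → ZMod 2,
      (∀ σ, d σ ≠ 0 → σ ⊆ LW W ∧ Plane cross σ ∧ σ.card = W.card) ∧ ∀ ρ, bd d ρ = C2_r c W ρ := by
  by_cases h2 : W.card = 2
  · refine ⟨fun _ => 0, fun σ h => absurd rfl h, fun ρ => ?_⟩
    rw [C2_two hc h2, bd_zero]
  · have h3 : 3 ≤ W.card := by omega
    obtain ⟨p, hp, hpF⟩ := hvis W h3
    have hz : ∀ ρ, bd (C2_r c W) ρ = 0 := by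
      intro ρ
      refine rhs_cycle c W (fun u hu ρ' => ?_) ρ
      have h4 := Finset.card_erase_add_one hu
      exact hr (W.erase u) (by omega) (by omega) ρ'
    obtain ⟨d, hd1, hd2⟩ := acyclic (L := LW W) (S := star W p) hsymm (C2_starLW hp)
      (C2_starPlane hadj W p) (by
        intro F hF hFp
        obtain ⟨z, hz1, hz2⟩ := hpF F (C2_diff hF) hFp
        rw [Finset.mem_erase] at hz1
        exact ⟨s(p, z), C2_memStar.2 ⟨z, hz1, rfl⟩, hz2⟩)
      (c := C2_r c W) (fun σ hσ => by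
        obtain ⟨h5, h6, _⟩ := C2_supp hadj hc W σ hσ
        exact ⟨h5, h6⟩) hz
    refine ⟨fun σ => if σ.card = m + 1 then d σ else 0, ?_, ?_⟩
    · intro σ hσ
      beta_reduce at hσ
      by_cases h5 : σ.card = m + 1
      · rw [if_pos h5] at hσ
        obtain ⟨h6, h7⟩ := hd1 σ hσ
        exact ⟨h6, h7, by rw [h5, hW]⟩
      · rw [if_neg h5] at hσ
        exact absurd rfl hσ
    · intro ρ
      rw [bd_card, hd2]
      by_cases h5 : ρ.card = m
      · rw [if_pos h5]
      · rw [if_neg h5]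
        by_contra h6
        obtain ⟨_, _, h7⟩ := C2_supp hadj hc W ρ (fun h => h6 h.symm)
        omega

/-- THE CHAINS. PROOF. By induction on `m` there is a `c` with the first property for all `W` and
the second for all `W` with `W.card ≤ m` (start: `c = 0`, `m = 1`). Step to `m + 1 ≥ 2`: change `c`
at the sets `W` with `m + 1` points only (the new values are independent of each other, and the
right side for `W` uses only values at smaller sets). If `W = {u, v}` has two points: take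
`c W = 0`; the right side is `c {v} + c {u} + [ρ = {s(u,v)}] + [ρ = {s(u,v)}] = 0`, as
`c {u} ρ ≠ 0` would need `ρ ⊆ LW {u} = ∅`, `ρ.card = 1`. If `W.card ≥ 3`: let `r` be the right side.
It is a cycle (`rhs_cycle`), supported on plane subsets of `LW W` with `W.card - 1` elements
(`c (W - u)` by induction; `star W u` is plane by `hadj` and has `W.card - 1` elements). Take
`p` with `Pole cross W p` and apply `acyclic` with `L = LW W`, `S = star W p`: `L \ S = LW (W - p)`,
so `hvis` is the pole property. This gives `d` with `bd d = r`; put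
`c W σ = if σ.card = W.card then d σ else 0` and use `bd_card`. -/
theorem chains {cross : Sym2 X → Sym2 X → Prop} (hsymm : ∀ e f, cross e f → cross f e)
    (hadj : ∀ u v w, ¬ cross s(u, v) s(u, w))
    (hvis : ∀ W : Finset X, 3 ≤ W.card → ∃ p, Pole cross W p) :
    ∃ c : Finset X → Finset (Sym2 X) → ZMod 2,
      (∀ W σ, c W σ ≠ 0 → σ ⊆ LW W ∧ Plane cross σ ∧ σ.card = W.card) ∧
      ∀ W : Finset X, 2 ≤ W.card → ∀ ρ, bd (c W) ρ =
        ∑ u ∈ W, c (W.erase u) ρ + ∑ u ∈ W, if ρ = star W u then 1 else 0 := by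
  classical
  have key : ∀ m : ℕ, 1 ≤ m → ∃ c : Finset X → Finset (Sym2 X) → ZMod 2,
      (∀ W σ, c W σ ≠ 0 → σ ⊆ LW W ∧ Plane cross σ ∧ σ.card = W.card) ∧
      ∀ W : Finset X, 2 ≤ W.card → W.card ≤ m → ∀ ρ, bd (c W) ρ = C2_r c W ρ := by
    intro m hm
    induction m, hm using Nat.le_induction with
    | base =>
      refine ⟨fun _ _ => 0, fun W σ h => absurd rfl h, fun W h1 h2 => ?_⟩
      omega
    | succ m hm ih =>
      obtain ⟨c, hc, hr⟩ := ih
      choose! d hd1 hd2 using C2_step hsymm hadj hvis hm hc hr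
      refine ⟨fun W => if W.card = m + 1 then d W else c W, ?_, ?_⟩
      · intro W σ hσ
        by_cases h1 : W.card = m + 1
        · simp only [h1, if_true] at hσ
          exact hd1 W h1 σ hσ
        · simp only [h1, if_false] at hσ
          exact hc W σ hσ
      · intro W h1 h2 ρ
        have h3 : C2_r (fun W => if W.card = m + 1 then d W else c W) W ρ = C2_r c W ρ := by
          unfold C2_r
          congr 1
          refine Finset.sum_congr rfl fun u hu => ?_
          have h4 := Finset.card_erase_add_one hu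
          have h5 : (W.erase u).card ≠ m + 1 := by omega
          simp only [h5, if_false]
        rw [h3]
        by_cases h4 : W.card = m + 1
        · simp only [h4, if_true]
          exact hd2 W h4 ρ
        · simp only [h4, if_false]
          exact hr W h1 (by omega) ρ
  obtain ⟨c, hc, hr⟩ := key (Fintype.card X + 1) (by omega)
  refine ⟨c, hc, fun W hW ρ => ?_⟩
  have h1 : W.card ≤ Fintype.card X := Finset.card_le_univ W
  exact hr W hW (by omega) ρ

end H98P
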