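import Pool.Agent.Lib.H98P.Defs

/-!
# H98P, chunk VO: adding the formal apex `∞ = none`
-/

set_option autoImplicit false

namespace H98P

open Finset

variable {V : Type*} [DecidableEq V]

/-- An edge at the apex crosses nothing (`none` is in `s(none, z)` and not in `e'.map some`). -/
theorem not_crossO_none (cross : Sym2 V → Sym2 V → Prop) (z : Option V)
    (f : Sym2 (Option V)) : ¬ crossO cross s(none, z) f := by
  rintro ⟨e', f', he, -, -⟩
  have h1 : (none : Option V) ∈ s(none, z) := Sym2.mem_mk_left _ _
  rw [he, Sym2.mem_map] at h1
  obtain ⟨a, -, ha⟩ := h1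
  exact Option.some_ne_none a ha

/-- `crossO` on edges coming from `V` (`Sym2.map.injective`, `Option.some_injective`). -/
theorem crossO_map (cross : Sym2 V → Sym2 V → Prop) (e f : Sym2 V) :
    crossO cross (e.map some) (f.map some) ↔ cross e f := by
  constructor
  · rintro ⟨e', f', he, hf, h⟩
    have h1 : e = e' := Sym2.map.injective (Option.some_injective V) he
    have h2 : f = f' := Sym2.map.injective (Option.some_injective V) hf
    rw [h1, h2]
    exact h
  · intro h
    exact ⟨e, f, rfl, rfl, h⟩

/-- `crossO` is symmetric. -/
theorem crossO_symm {cross : Sym2 V → Sym2 V → Prop} (hsymm : ∀ e f, cross e f → cross f e)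
    (e f : Sym2 (Option V)) (h : crossO cross e f) : crossO cross f e := by
  obtain ⟨e', f', he, hf, h'⟩ := h
  exact ⟨f', e', hf, he, hsymm _ _ h'⟩

/-- Adjacent edges do not cross. -/
theorem crossO_adj {cross : Sym2 V → Sym2 V → Prop} (hadj : ∀ u v w, ¬ cross s(u, v) s(u, w))
    (u v w : Option V) : ¬ crossO cross s(u, v) s(u, w) := by
  rintro ⟨e', f', he, hf, h'⟩
  induction e' using Sym2.ind with
  | _ a b =>
    induction f' using Sym2.ind with
    | _ c d =>
      rw [Sym2.map_mk, Sym2.eq_iff] at he hf
      rcases he with ⟨h1, h2⟩ | ⟨h1, h2⟩ <;> rcases hf with ⟨h3, h4⟩ | ⟨h3, h4⟩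
      · have h5 : a = c := Option.some_injective V (h1.symm.trans h3)
        subst h5
        exact hadj _ _ _ h'
      · have h5 : a = d := Option.some_injective V (h1.symm.trans h3)
        subst h5
        rw [Sym2.eq_swap (a := c)] at h'
        exact hadj _ _ _ h'
      · have h5 : b = c := Option.some_injective V (h1.symm.trans h3)
        subst h5
        rw [Sym2.eq_swap (a := a)] at h'
        exact hadj _ _ _ h'
      · have h5 : b = d := Option.some_injective V (h1.symm.trans h3)
        subst h5
        rw [Sym2.eq_swap (a := a), Sym2.eq_swap (a := c)] at h'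
        exact hadj _ _ _ h'

/-- POLES in `V + ∞`. PROOF. If `none ∈ W`, `none` is a pole: every `z ∈ W - none` (there is one)
works by `not_crossO_none`. If `none ∉ W`, then `W` is the image of `W' : Finset V` under `some`
(`Finset.eraseNone W`, `Finset.map_some_eraseNone`), with the same cardinality. Take a pole `p` of
`W'`; `some p` is a pole of `W`: for `F ⊆ LW (W - some p)` plane let `F'` be the set of all `e` with
`e.map some ∈ F` (the preimage of `F`, finite because the map is injective:
`Finset.preimage`); `F' ⊆ LW (W' - p)` is plane, take its `z`; every `f ∈ F` is `f'.map some` with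
`f' ∈ F'` (both ends of `f` are different from `none`), and `crossO_map` applies. -/
theorem poleO {cross : Sym2 V → Sym2 V → Prop}
    (hvis : ∀ W : Finset V, 3 ≤ W.card → ∃ p, Pole cross W p)
    (W : Finset (Option V)) (hW : 3 ≤ W.card) : ∃ p, Pole (crossO cross) W p := by
  by_cases hn : (none : Option V) ∈ W
  · refine ⟨none, hn, fun F _ _ => ?_⟩
    have h1 : (W.erase none).card = W.card - 1 := Finset.card_erase_of_mem hn
    have h2 : 0 < (W.erase none).card := by omega
    obtain ⟨z, hz⟩ := Finset.card_pos.mp h2
    exact ⟨z, hz, fun f _ => not_crossO_none cross z f⟩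
  · have hmap : (Finset.eraseNone W).map Function.Embedding.some = W := by
      rw [Finset.map_some_eraseNone, Finset.erase_eq_of_notMem hn]
    have hcard : 3 ≤ (Finset.eraseNone W).card := by
      rw [← Finset.card_map Function.Embedding.some, hmap]
      exact hW
    obtain ⟨p, hp, hpole⟩ := hvis _ hcard
    have hpW : some p ∈ W := Finset.mem_eraseNone.mp hp
    refine ⟨some p, hpW, fun F hF hP => ?_⟩
    have hinj : Function.Injective (Sym2.map (some : V → Option V)) :=
      Sym2.map.injective (Option.some_injective V)
    obtain ⟨z, hz, hzF⟩ := hpole (F.preimage (Sym2.map some) hinj.injOn) (by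
      intro e he
      rw [Finset.mem_preimage] at he
      have h1 := hF he
      unfold LW at h1 ⊢
      rw [Finset.mem_filter, Finset.mem_sym2_iff] at h1 ⊢
      constructor
      · intro a ha
        have h2 := h1.1 (some a) (Sym2.mem_map.mpr ⟨a, ha, rfl⟩)
        rw [Finset.mem_erase] at h2 ⊢
        refine ⟨fun h3 => h2.1 (by rw [h3]), Finset.mem_eraseNone.mpr h2.2⟩
      · intro h3
        apply h1.2
        induction e using Sym2.ind with
        | _ a b =>
          rw [Sym2.map_mk]
          rw [Sym2.mk_isDiag_iff] at h3 ⊢
          rw [h3]) (by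
      intro e he f hf hc
      rw [Finset.mem_preimage] at he hf
      exact hP _ he _ hf ((crossO_map cross e f).mpr hc))
    rw [Finset.mem_erase] at hz
    refine ⟨some z, Finset.mem_erase.mpr ⟨fun h => hz.1 (Option.some_injective V h),
      Finset.mem_eraseNone.mp hz.2⟩, fun f hf hc => ?_⟩
    have h1 := hF hf
    unfold LW at h1
    rw [Finset.mem_filter, Finset.mem_sym2_iff] at h1
    obtain ⟨f', rfl⟩ : ∃ f' : Sym2 V, f = f'.map some := by
      have h2 := h1.1
      clear h1 hf hc
      induction f using Sym2.ind with
      | _ x y =>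
        have hx := Finset.mem_of_mem_erase (h2 x (Sym2.mem_mk_left _ _))
        have hy := Finset.mem_of_mem_erase (h2 y (Sym2.mem_mk_right _ _))
        rcases x with _ | x
        · exact absurd hx hn
        · rcases y with _ | y
          · exact absurd hy hn
          · exact ⟨s(x, y), rfl⟩
    have h3 : (s(some p, some z) : Sym2 (Option V)) = Sym2.map some s(p, z) := rfl
    rw [h3, crossO_map] at hc
    exact hzF f' (Finset.mem_preimage.mpr hf) hc

end H98P
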